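import Mathlib
import Pool.Agent.TP975.LR.Lm1

/-!
Bounds of Montgomery type for the sums of `λ(f(n))` over all segments of all arithmetic progressions, for almost all
polynomials `f`.
-/

set_option autoImplicit false

namespace Pool.Agent.Results.MP_848d44_nt.SegmentsOfProgressions

open Finset

/-- the Liouville function on the integers, `lam (-m) = lam m`, `lam 0 = 0` -/
noncomputable def lam (m : ℤ) : ℝ := if m = 0 then 0 else (-1) ^ ArithmeticFunction.cardFactors m.natAbs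

/-- the value at `t` of the polynomial with the coefficients `a 0, ..., a d` -/
def value {d : ℕ} (a : Fin (d + 1) → ℤ) (t : ℤ) : ℤ := ∑ c, a c * t ^ (c : ℕ)

/-- the polynomials of degree at most `d` with coefficients in `[-H, H]` -/
noncomputable def box (d H : ℕ) : Finset (Fin (d + 1) → ℤ) := Fintype.piFinset fun _ => Icc (-(H : ℤ)) H

/-- the sum of `lam (f (r + q u))` over `1 ≤ u ≤ N` -/
noncomputable def S {d : ℕ} (f : Fin (d + 1) → ℤ) (q r N : ℕ) : ℝ := ∑ u ∈ Icc 1 N, lam (value f ((r + q * u : ℕ) : ℤ))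

open Classical in
/-- Almost all polynomials `f` of degree at most `d` satisfy `|S f q r N| ^ (2 d) ≤ q (r + q N) N ^ (d - 1) log ^ ε H` for ALL
`q ≥ 1`, `r ≥ 0`, `N ≥ 1` with `r + q N ≤ log ^ A H`. -/
theorem result (d A : ℕ) (hd : 1 ≤ d) (ε : ℝ) (hε : 0 < ε) :
    ∃ η : ℝ, 0 < η ∧ ∃ H₀ : ℕ, ∀ H : ℕ, H₀ ≤ H →
    (((box d H).filter (fun f => ∃ q r N : ℕ, 1 ≤ q ∧ 1 ≤ N ∧ ((r + q * N : ℕ) : ℝ) ≤ Real.log H ^ A ∧
      (q : ℝ) * ((r + q * N : ℕ) : ℝ) * (N : ℝ) ^ (d - 1) * Real.log H ^ ε < |S f q r N| ^ (2 * d))).card : ℝ) ≤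
      (box d H).card / Real.log H ^ η := by
  obtain ⟨η, hη, H0, h0⟩ := Pool.Agent.TP975.LR.all_seg Pool.Agent.TP975.LR.lamI Pool.Agent.TP975.LR.winB_lamI
    Pool.Agent.TP975.LR.lamI_abs d A hd ε hε
  refine ⟨η, hη, H0, fun H hH => ?_⟩
  obtain ⟨Bad, _, hB, hall⟩ := h0 H hH
  refine le_trans ?_ hB
  have hsub : (box d H).filter (fun f => ∃ q r N : ℕ, 1 ≤ q ∧ 1 ≤ N ∧ ((r + q * N : ℕ) : ℝ) ≤ Real.log H ^ A ∧
      (q : ℝ) * ((r + q * N : ℕ) : ℝ) * (N : ℝ) ^ (d - 1) * Real.log H ^ ε < |S f q r N| ^ (2 * d)) ⊆ Bad := by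
    intro f hf
    rw [mem_filter] at hf
    obtain ⟨hf1, q, r, N, hq, hN, hX, hlt⟩ := hf
    by_contra hbad
    apply absurd hlt
    rw [not_lt, (even_two_mul d).pow_abs]
    exact hall f hf1 hbad q r N hq hN hX
  exact_mod_cast card_le_card hsub

end Pool.Agent.Results.MP_848d44_nt.SegmentsOfProgressions
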